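import Pool.Agent.E8helper7.LongTape.Literal

/-!
# MP_5db8c7_lc, Q1, in the literal wording of the problem file

Here the machine is at every limit time in one distinguished limit state (the state `1`), and the
head is at the inferior limit of its earlier positions.
-/

open Ordinal

namespace Pool.Agent.Results.MP_5db8c7_lc.LiteralModelH7

open Pool.E8helper7.LongTape

/-- With a distinguished limit state `θ ω = ω` and `θ α = ω * 2` for every multiplicatively closed
`α > ω`; in particular `θ` is monotone. -/
theorem result : theta .special ω = ω ∧
    (∀ α, MulClosed α → ω < α → theta .special α = ω * 2) ∧
    ∀ α β, MulClosed α → MulClosed β → α ≤ β → theta .special α ≤ theta .special β :=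
  ⟨theta_special_omega, fun _ => theta_special, fun _ _ => theta_special_mono⟩

end Pool.Agent.Results.MP_5db8c7_lc.LiteralModelH7
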