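import Pool.Agent.E8helper7.LongTape.Reflect

/-!
# MP_5db8c7_lc, Q1: the supremum of the reachable cells is not monotone in the tape length

The machines have three tapes of length `α` and one head; at limit times each cell holds the
inferior limit of its earlier contents, the head is at the inferior limit of its earlier positions
(or at `0` if that is `α`), and the state is the inferior limit of the earlier states.
-/

open Ordinal

namespace Pool.Agent.Results.MP_5db8c7_lc.NotMonotoneH7

open Pool.E8helper7.LongTape

/-- For every countable `ξ` there are countable multiplicatively closed ordinals `ξ < α < β` with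
`θ β ≤ θ ω₁ < θ α` and `ξ ≤ θ α`. -/
theorem result (ξ : Ordinal.{0}) (hξ : ξ < ω_ 1) : ∃ α β : Ordinal.{0},
    MulClosed α ∧ MulClosed β ∧ ξ < α ∧ α < β ∧ β < ω_ 1 ∧
      ξ ≤ theta .liminf α ∧
      theta .liminf β ≤ theta .liminf (ω_ 1) ∧
      theta .liminf (ω_ 1) < theta .liminf α :=
  not_monotone ξ hξ

end Pool.Agent.Results.MP_5db8c7_lc.NotMonotoneH7
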